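import Mathlib
import Pool.Agent.Q133.CyclePoly

set_option autoImplicit false

/-!
# The graphical cycle polynomial of a chordal graph need not be real-rooted (Q1, disproof)
-/

namespace Pool.Agent.Results.MP_efc620_co.FanNotRealRooted

open Polynomial Q133.CyclePoly

/-- There is a chordal graph `G` (on five vertices) such that `𝒞(G,x)` has a non-real complex
root. -/
theorem result :
    ∃ (G : SimpleGraph (Fin 5)) (_ : DecidableRel G.Adj), IsChordal G ∧
      ∃ z : ℂ, aeval z (cyclePoly G) = 0 ∧ z.im ≠ 0 := by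
  refine ⟨fan, inferInstance, fan_chordal, ?_⟩
  obtain ⟨z, hz, him⟩ := nonreal
  refine ⟨z, ?_, him⟩
  have e : aeval z (cyclePoly fan) =
      z * (z ^ 4 + 7 * z ^ 3 + 13 * z ^ 2 + 8 * z + 2) := by
    rw [cyclePoly_fan]
    simp only [map_mul, map_add, map_pow, aeval_X, map_ofNat]
  rw [e, hz, mul_zero]

end Pool.Agent.Results.MP_efc620_co.FanNotRealRooted
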